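import Mathlib

/-!
# The area of a circular sector
-/

namespace Pool.Agent.R171.Dis

open MeasureTheory Set Real

/-- the closed cone spanned by `1` and `w` -/
def cone1 (w : ℂ) : Set ℂ := {z | 0 ≤ z.im ∧ 0 ≤ (w * (starRingEnd ℂ) z).im}

theorem polar_mem_cone1 {w : ℂ} (hw : 0 < w.im) {ρ φ : ℝ} (hρ : 0 < ρ) (h1 : -π < φ)
    (h2 : φ < π) :
    Complex.polarCoord.symm (ρ, φ) ∈ cone1 w ↔ 0 ≤ φ ∧ φ ≤ w.arg := by
  have hw0 : w ≠ 0 := by
    rintro rfl
    simp at hw
  have hβ0 : 0 ≤ w.arg := Complex.arg_nonneg_iff.2 hw.le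
  have hβπ : w.arg < π := Complex.arg_lt_pi_iff.2 (Or.inr hw.ne')
  have hn : 0 < ‖w‖ := norm_pos_iff.2 hw0
  have hre := Complex.norm_mul_cos_arg w
  have him := Complex.norm_mul_sin_arg w
  rw [Complex.polarCoord_symm_apply]
  unfold cone1
  have e1 : ((ρ : ℂ) * ((Real.cos φ : ℂ) + (Real.sin φ : ℂ) * Complex.I)).im = ρ * Real.sin φ := by
    simp [-Complex.ofReal_cos, -Complex.ofReal_sin]
  have e2 : (w * (starRingEnd ℂ) ((ρ : ℂ) * ((Real.cos φ : ℂ) + (Real.sin φ : ℂ) * Complex.I))).im =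
      ‖w‖ * ρ * Real.sin (w.arg - φ) := by
    rw [Real.sin_sub]
    simp [-Complex.ofReal_cos, -Complex.ofReal_sin]
    rw [← hre, ← him]
    ring
  simp only [Set.mem_ofPred_eq]
  rw [e1, e2]
  constructor
  · rintro ⟨a1, a2⟩
    have b1 : 0 ≤ Real.sin φ := by
      by_contra hcon
      push Not at hcon
      have := mul_neg_of_pos_of_neg hρ hcon
      linarith
    have b2 : 0 ≤ Real.sin (w.arg - φ) := by
      by_contra hcon
      push Not at hcon
      have := mul_neg_of_pos_of_neg (mul_pos hn hρ) hcon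
      linarith
    have c1 : 0 ≤ φ := by
      by_contra hcon
      push Not at hcon
      have := Real.sin_neg_of_neg_of_neg_pi_lt hcon h1
      linarith
    refine ⟨c1, ?_⟩
    by_contra hcon
    push Not at hcon
    have := Real.sin_neg_of_neg_of_neg_pi_lt (show w.arg - φ < 0 by linarith) (by linarith)
    linarith
  · rintro ⟨a1, a2⟩
    constructor
    · exact mul_nonneg hρ.le (Real.sin_nonneg_of_nonneg_of_le_pi a1 h2.le)
    · exact mul_nonneg (mul_nonneg hn.le hρ.le)
        (Real.sin_nonneg_of_nonneg_of_le_pi (by linarith) (by linarith))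

theorem lint_id {r : ℝ} (hr : 0 < r) :
    ∫⁻ ρ in Ioo 0 r, ENNReal.ofReal ρ = ENNReal.ofReal (r ^ 2 / 2) := by
  have h1 : ∫⁻ ρ in Ioo 0 r, ENNReal.ofReal ρ = ENNReal.ofReal (∫ ρ in Ioo 0 r, ρ) := by
    rw [ofReal_integral_eq_lintegral_ofReal]
    · exact (continuous_id.integrableOn_Icc (a := 0) (b := r)).mono_set Ioo_subset_Icc_self
    · rw [Filter.EventuallyLE, ae_restrict_iff' measurableSet_Ioo]
      exact Filter.Eventually.of_forall fun x hx => hx.1.le
  rw [h1, ← integral_Ioc_eq_integral_Ioo, ← intervalIntegral.integral_of_le hr.le, integral_id]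
  norm_num

theorem measurable_cone1 (w : ℂ) : MeasurableSet (cone1 w) := by
  unfold cone1
  apply IsClosed.measurableSet
  apply IsClosed.inter
  · exact isClosed_le continuous_const Complex.continuous_im
  · exact isClosed_le continuous_const
      (Complex.continuous_im.comp (continuous_const.mul Complex.continuous_conj))

/-- area of the sector -/
theorem volume_sector {w : ℂ} (hw : 0 < w.im) {r : ℝ} (hr : 0 < r) :
    volume (cone1 w ∩ Metric.ball 0 r) = ENNReal.ofReal (w.arg / 2 * r ^ 2) := by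
  have hβ0 : 0 ≤ w.arg := Complex.arg_nonneg_iff.2 hw.le
  have hβπ : w.arg < π := Complex.arg_lt_pi_iff.2 (Or.inr hw.ne')
  have hm : MeasurableSet (cone1 w ∩ Metric.ball 0 r) :=
    (measurable_cone1 w).inter measurableSet_ball
  rw [← lintegral_indicator_one hm, ← Complex.lintegral_comp_polarCoord_symm]
  have h1 : ∀ p ∈ polarCoord.target,
      ENNReal.ofReal p.1 • (cone1 w ∩ Metric.ball 0 r).indicator (1 : ℂ → ENNReal)
        (Complex.polarCoord.symm p) =
      (Ioo 0 r ×ˢ Icc 0 w.arg).indicator (fun p : ℝ × ℝ => ENNReal.ofReal p.1) p := by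
    rintro ⟨ρ, φ⟩ hp
    rw [polarCoord_target] at hp
    obtain ⟨hρ, hφ⟩ := hp
    have hρ' : 0 < ρ := hρ
    have hφ' : -π < φ ∧ φ < π := hφ
    have hmem := polar_mem_cone1 hw hρ' hφ'.1 hφ'.2
    have hball : Complex.polarCoord.symm (ρ, φ) ∈ Metric.ball (0 : ℂ) r ↔ ρ < r := by
      rw [mem_ball_zero_iff, Complex.norm_polarCoord_symm, abs_of_pos hρ']
    by_cases hin : (ρ < r) ∧ 0 ≤ φ ∧ φ ≤ w.arg
    · rw [indicator_of_mem, indicator_of_mem]
      · simp
      · exact ⟨⟨hρ', hin.1⟩, hin.2⟩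
      · exact ⟨hmem.2 hin.2, hball.2 hin.1⟩
    · rw [indicator_of_notMem, indicator_of_notMem]
      · simp
      · rintro ⟨h2, h3⟩
        exact hin ⟨h2.2, h3⟩
      · rintro ⟨h2, h3⟩
        exact hin ⟨hball.1 h3, hmem.1 h2⟩
  rw [setLIntegral_congr_fun (polarCoord.open_target.measurableSet) h1]
  rw [lintegral_indicator (measurableSet_Ioo.prod measurableSet_Icc), Measure.restrict_restrict
    (measurableSet_Ioo.prod measurableSet_Icc)]
  have h2 : (Ioo 0 r ×ˢ Icc 0 w.arg) ∩ polarCoord.target = Ioo 0 r ×ˢ Icc 0 w.arg := by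
    rw [polarCoord_target]
    apply inter_eq_left.2
    rintro ⟨ρ, φ⟩ ⟨h2, h3⟩
    refine ⟨h2.1, ?_⟩
    have h3' : 0 ≤ φ ∧ φ ≤ w.arg := h3
    exact ⟨by linarith [Real.pi_pos], by linarith⟩
  rw [h2, Measure.volume_eq_prod, ← Measure.prod_restrict]
  have h3 := lintegral_prod_mul (μ := volume.restrict (Ioo 0 r)) (ν := volume.restrict (Icc 0 w.arg))
    (f := fun ρ : ℝ => ENNReal.ofReal ρ) (g := fun _ : ℝ => 1)
    (by fun_prop) (by fun_prop)
  simp only [mul_one] at h3
  rw [h3, lint_id hr, setLIntegral_const, one_mul, Real.volume_Icc, ← ENNReal.ofReal_mul (by positivity)]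
  congr 1
  ring

end Pool.Agent.R171.Dis
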