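import Mathlib
import Pool.Agent.R171.Dis.Sector

/-!
# Local angles of triangles as area densities
-/

namespace Pool.Agent.R171.Dis

open MeasureTheory Set

/-- the region `A` has the angle `θ` at `x`: for all small `r` the area of `A` in the disk of
radius `r` around `x` is `θ / 2 * r ^ 2` -/
def HasAngle (A : Set ℂ) (x : ℂ) (θ : ℝ) : Prop :=
  ∃ ε : ℝ, 0 < ε ∧ ∀ r : ℝ, 0 < r → r < ε →
    volume (A ∩ Metric.ball x r) = ENNReal.ofReal (θ / 2 * r ^ 2)

/-- the closed cone spanned by `u` and `v` -/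
def cone (u v : ℂ) : Set ℂ := {z | ∃ s t : ℝ, 0 ≤ s ∧ 0 ≤ t ∧ z = s * u + t * v}

theorem cone_comm (u v : ℂ) : cone u v = cone v u := by
  ext z
  constructor
  · rintro ⟨s, t, hs, ht, h⟩
    exact ⟨t, s, ht, hs, by rw [h]; ring⟩
  · rintro ⟨s, t, hs, ht, h⟩
    exact ⟨t, s, ht, hs, by rw [h]; ring⟩

theorem mem_cone1_iff {w : ℂ} (hw : 0 < w.im) (y : ℂ) :
    y ∈ cone1 w ↔ ∃ s t : ℝ, 0 ≤ s ∧ 0 ≤ t ∧ y = s + t * w := by
  unfold cone1
  simp only [Set.mem_ofPred_eq]
  have e : (w * (starRingEnd ℂ) y).im = w.im * y.re - w.re * y.im := by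
    simp
    ring
  rw [e]
  constructor
  · rintro ⟨h1, h2⟩
    refine ⟨(w.im * y.re - w.re * y.im) / w.im, y.im / w.im, div_nonneg h2 hw.le,
      div_nonneg h1 hw.le, ?_⟩
    apply Complex.ext
    · simp
      field_simp
      ring
    · simp
      field_simp
  · rintro ⟨s, t, hs, ht, rfl⟩
    simp
    refine ⟨mul_nonneg ht hw.le, ?_⟩
    have : w.re * (t * w.im) + s * w.im - s * w.im = w.re * (t * w.im) := by ring
    have h3 : 0 ≤ s * w.im := mul_nonneg hs hw.le
    nlinarith

theorem volume_cone_pos {u v : ℂ} (h : 0 < (v / u).im) {r : ℝ} (hr : 0 < r) :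
    volume (cone u v ∩ Metric.ball 0 r) =
      ENNReal.ofReal (InnerProductGeometry.angle u v / 2 * r ^ 2) := by
  have hu : u ≠ 0 := by
    rintro rfl
    simp at h
  have hv : v ≠ 0 := by
    rintro rfl
    simp at h
  have hn : 0 < ‖u‖ := norm_pos_iff.2 hu
  have hnc : (‖u‖ : ℂ) ≠ 0 := by exact_mod_cast hn.ne'
  have hang : InnerProductGeometry.angle u v = (v / u).arg := by
    rw [InnerProductGeometry.angle_comm, Complex.angle_eq_abs_arg hv hu,
      abs_of_nonneg (Complex.arg_nonneg_iff.2 h.le)]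
  rw [hang, ← volume_sector h hr]
  let c : Circle := ⟨(‖u‖ : ℂ) / u, by
    rw [Submonoid.unitSphere.eq_1]; simp [hn.ne']⟩
  have hc : (c : ℂ) = ‖u‖ / u := rfl
  have hmp := (rotation c).measurePreserving
  have hpre := hmp.measure_preimage (s := cone1 (v / u) ∩ Metric.ball 0 r)
    (((measurable_cone1 _).inter measurableSet_ball).nullMeasurableSet)
  rw [← hpre]
  congr 1
  ext z
  have hball : (rotation c) z ∈ Metric.ball (0 : ℂ) r ↔ z ∈ Metric.ball (0 : ℂ) r := by
    rw [mem_ball_zero_iff, mem_ball_zero_iff, LinearIsometryEquiv.norm_map]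
  have hcone : (rotation c) z ∈ cone1 (v / u) ↔ z ∈ cone u v := by
    rw [mem_cone1_iff h, rotation_apply, hc]
    constructor
    · rintro ⟨s, t, hs, ht, h1⟩
      refine ⟨s / ‖u‖, t / ‖u‖, div_nonneg hs hn.le, div_nonneg ht hn.le, ?_⟩
      push_cast
      have : z = u / ‖u‖ * (‖u‖ / u * z) := by
        field_simp
      rw [this, h1]
      field_simp
    · rintro ⟨s, t, hs, ht, rfl⟩
      refine ⟨‖u‖ * s, ‖u‖ * t, mul_nonneg hn.le hs, mul_nonneg hn.le ht, ?_⟩
      push_cast
      field_simp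
  constructor
  · rintro ⟨h1, h2⟩
    exact ⟨hcone.2 h1, hball.2 h2⟩
  · rintro ⟨h1, h2⟩
    exact ⟨hcone.1 h1, hball.1 h2⟩

theorem volume_cone {u v : ℂ} (h : (v / u).im ≠ 0) {r : ℝ} (hr : 0 < r) :
    volume (cone u v ∩ Metric.ball 0 r) =
      ENNReal.ofReal (InnerProductGeometry.angle u v / 2 * r ^ 2) := by
  rcases lt_or_gt_of_ne h with h1 | h1
  · have hu : u ≠ 0 := by
      rintro rfl
      simp at h
    have hv : v ≠ 0 := by
      rintro rfl
      simp at h
    rw [cone_comm, InnerProductGeometry.angle_comm]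
    apply volume_cone_pos _ hr
    have e : u / v = (v / u)⁻¹ := by rw [inv_div]
    rw [e, Complex.inv_im]
    apply div_pos (by linarith)
    exact Complex.normSq_pos.2 (div_ne_zero hv hu)
  · exact volume_cone_pos h1 hr

/-- the region of a triangle -/
def reg (t : Affine.Triangle ℝ ℂ) : Set ℂ := convexHull ℝ (Set.range t.points)

/-- the affine basis of a triangle -/
noncomputable def bas (t : Affine.Triangle ℝ ℂ) : AffineBasis (Fin 3) ℝ ℂ :=
  ⟨t.points, t.independent, by
    rw [t.independent.affineSpan_eq_top_iff_card_eq_finrank_add_one]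
    simp⟩

theorem bas_apply (t : Affine.Triangle ℝ ℂ) (m : Fin 3) : bas t m = t.points m := rfl

theorem reg_eq (t : Affine.Triangle ℝ ℂ) : reg t = {x | ∀ i, 0 ≤ (bas t).coord i x} :=
  AffineBasis.convexHull_eq_nonneg_coord (bas t)

theorem int_reg (t : Affine.Triangle ℝ ℂ) :
    interior (reg t) = {x | ∀ i, 0 < (bas t).coord i x} :=
  AffineBasis.interior_convexHull (bas t)

theorem reg_compact (t : Affine.Triangle ℝ ℂ) : IsCompact (reg t) :=
  (Set.finite_range _).isCompact_convexHull ℝ

theorem reg_closed (t : Affine.Triangle ℝ ℂ) : IsClosed (reg t) := (reg_compact t).isClosed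

theorem reg_convex (t : Affine.Triangle ℝ ℂ) : Convex ℝ (reg t) := convex_convexHull ℝ _

theorem coord_cont (t : Affine.Triangle ℝ ℂ) (m : Fin 3) :
    Continuous (fun z => (bas t).coord m z) := continuous_barycentric_coord (bas t) m

/-- the three indices -/
theorem idx3 (m : Fin 3) (P : Fin 3 → Prop) : (∀ i, P i) ↔ P m ∧ P (m + 1) ∧ P (m + 2) := by
  constructor
  · intro h
    exact ⟨h _, h _, h _⟩
  · rintro ⟨h1, h2, h3⟩ i
    have : i = m ∨ i = m + 1 ∨ i = m + 2 := by
      clear h1 h2 h3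
      revert i m
      decide
    rcases this with rfl | rfl | rfl
    · exact h1
    · exact h2
    · exact h3

theorem expand (t : Affine.Triangle ℝ ℂ) (m : Fin 3) (z : ℂ) :
    z - t.points m = ((bas t).coord (m + 1) z : ℂ) * (t.points (m + 1) - t.points m) +
      ((bas t).coord (m + 2) z : ℂ) * (t.points (m + 2) - t.points m) := by
  have h1 := (bas t).linear_combination_coord_eq_self z
  have h2 := (bas t).sum_coord_apply_eq_one z
  rw [Fin.sum_univ_three] at h1 h2
  simp only [bas_apply, Complex.real_smul] at h1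
  have h3 : (((bas t).coord 0 z : ℝ) : ℂ) + ((bas t).coord 1 z : ℝ) + ((bas t).coord 2 z : ℝ) = 1 := by
    exact_mod_cast h2
  fin_cases m
  · show z - t.points 0 = ((bas t).coord 1 z : ℂ) * (t.points 1 - t.points 0) +
      ((bas t).coord 2 z : ℂ) * (t.points 2 - t.points 0)
    linear_combination (-1 : ℂ) * h1 + t.points 0 * h3
  · show z - t.points 1 = ((bas t).coord 2 z : ℂ) * (t.points 2 - t.points 1) +
      ((bas t).coord 0 z : ℂ) * (t.points 0 - t.points 1)
    linear_combination (-1 : ℂ) * h1 + t.points 1 * h3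
  · show z - t.points 2 = ((bas t).coord 0 z : ℂ) * (t.points 0 - t.points 2) +
      ((bas t).coord 1 z : ℂ) * (t.points 1 - t.points 2)
    linear_combination (-1 : ℂ) * h1 + t.points 2 * h3

theorem ne1 (m : Fin 3) : m + 1 ≠ m := by
  revert m
  decide

theorem ne2 (m : Fin 3) : m + 2 ≠ m := by
  revert m
  decide

theorem ne12 (m : Fin 3) : m + 1 ≠ m + 2 := by
  revert m
  decide

theorem indep (t : Affine.Triangle ℝ ℂ) (m : Fin 3) :
    ((t.points (m + 2) - t.points m) / (t.points (m + 1) - t.points m)).im ≠ 0 := by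
  intro h
  have hu : t.points (m + 1) - t.points m ≠ 0 := by
    rw [sub_ne_zero]
    intro h1
    exact ne1 m (t.independent.injective h1)
  obtain ⟨ρ, hρ⟩ : ∃ ρ : ℝ, (t.points (m + 2) - t.points m) / (t.points (m + 1) - t.points m) = ρ :=
    ⟨((t.points (m + 2) - t.points m) / (t.points (m + 1) - t.points m)).re,
      Complex.ext (by simp) (by rw [h]; simp)⟩
  have h1 : t.points (m + 2) = AffineMap.lineMap (t.points m) (t.points (m + 1)) ρ := by
    rw [AffineMap.lineMap_apply]
    rw [div_eq_iff hu] at hρ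
    simp only [vsub_eq_sub, vadd_eq_add, Complex.real_smul]
    rw [← hρ]
    ring
  have h2 := congrArg ((bas t).coord (m + 2)) h1
  rw [AffineMap.apply_lineMap] at h2
  have e1 : (bas t).coord (m + 2) (t.points (m + 2)) = 1 := (bas t).coord_apply_eq (m + 2)
  have e2 : (bas t).coord (m + 2) (t.points m) = 0 := (bas t).coord_apply_ne (ne2 m)
  have e3 : (bas t).coord (m + 2) (t.points (m + 1)) = 0 :=
    (bas t).coord_apply_ne (ne12 m).symm
  rw [e1, e2, e3, AffineMap.lineMap_same] at h2
  simp at h2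

theorem real_indep {u v : ℂ} (h : (v / u).im ≠ 0) {a b c d : ℝ}
    (he : (a : ℂ) * u + b * v = c * u + d * v) : a = c ∧ b = d := by
  have hu : u ≠ 0 := by
    rintro rfl
    simp at h
  have h1 : ((a - c : ℝ) : ℂ) + ((b - d : ℝ) : ℂ) * (v / u) = 0 := by
    push_cast
    field_simp
    linear_combination he
  have h2 := congrArg Complex.im h1
  rw [Complex.add_im, Complex.ofReal_im, Complex.im_ofReal_mul, zero_add, Complex.zero_im] at h2
  rcases mul_eq_zero.1 h2 with h3 | h3
  · have h4 := congrArg Complex.re h1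
    rw [Complex.add_re, Complex.ofReal_re, Complex.re_ofReal_mul, h3, zero_mul, add_zero,
      Complex.zero_re] at h4
    exact ⟨by linarith, by linarith⟩
  · exact absurd h3 h

theorem coord_small (t : Affine.Triangle ℝ ℂ) (m : Fin 3) {x : ℂ} (h : 0 < (bas t).coord m x) :
    ∃ ε : ℝ, 0 < ε ∧ ∀ z ∈ Metric.ball x ε, 0 < (bas t).coord m z := by
  have ho : IsOpen {z | 0 < (bas t).coord m z} := isOpen_lt continuous_const (coord_cont t m)
  obtain ⟨ε, hε, hsub⟩ := Metric.isOpen_iff.1 ho x h
  exact ⟨ε, hε, fun z hz => hsub hz⟩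

/-- the angle at a corner -/
theorem hasAngle_corner (t : Affine.Triangle ℝ ℂ) (m : Fin 3) :
    HasAngle (reg t) (t.points m)
      (EuclideanGeometry.angle (t.points (m + 1)) (t.points m) (t.points (m + 2))) := by
  have h1 : (bas t).coord m (t.points m) = 1 := (bas t).coord_apply_eq m
  obtain ⟨ε, hε, hsmall⟩ := coord_small t m (x := t.points m) (by rw [h1]; exact one_pos)
  refine ⟨ε, hε, fun r hr0 hr => ?_⟩
  have hind := indep t m
  have hvol := volume_cone hind hr0
  unfold EuclideanGeometry.angle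
  rw [vsub_eq_sub, vsub_eq_sub, ← hvol]
  have hpre := measure_preimage_add_right (volume : Measure ℂ) (-(t.points m))
    (cone (t.points (m + 1) - t.points m) (t.points (m + 2) - t.points m) ∩ Metric.ball 0 r)
  rw [← hpre]
  congr 1
  ext z
  have hb : z ∈ Metric.ball (t.points m) r ↔ z + -t.points m ∈ Metric.ball (0 : ℂ) r := by
    rw [mem_ball_iff_norm, mem_ball_zero_iff, sub_eq_add_neg]
  constructor
  · rintro ⟨hz, hzb⟩
    rw [reg_eq] at hz
    refine ⟨⟨(bas t).coord (m + 1) z, (bas t).coord (m + 2) z, hz _, hz _, ?_⟩, hb.1 hzb⟩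
    show z + -t.points m = _
    rw [← sub_eq_add_neg]
    exact expand t m z
  · rintro ⟨⟨s, t', hs, ht, hz⟩, hzb⟩
    have hzb' := hb.2 hzb
    refine ⟨?_, hzb'⟩
    change z + -t.points m = _ at hz
    rw [← sub_eq_add_neg, expand t m z] at hz
    obtain ⟨e1, e2⟩ := real_indep hind hz
    rw [reg_eq, Set.mem_ofPred_eq, idx3 m]
    refine ⟨(hsmall z (Metric.ball_subset_ball hr.le hzb')).le, ?_, ?_⟩
    · rw [e1]; exact hs
    · rw [e2]; exact ht

theorem hasAngle_int (t : Affine.Triangle ℝ ℂ) {x : ℂ} (hx : x ∈ interior (reg t)) :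
    HasAngle (reg t) x (2 * Real.pi) := by
  obtain ⟨ε, hε, hsub⟩ := Metric.isOpen_iff.1 isOpen_interior x hx
  refine ⟨ε, hε, fun r hr0 hr => ?_⟩
  have h1 : reg t ∩ Metric.ball x r = Metric.ball x r := by
    apply inter_eq_right.2
    exact ((Metric.ball_subset_ball hr.le).trans hsub).trans interior_subset
  rw [h1, Complex.volume_ball, ← ENNReal.ofReal_coe_nnreal, ← ENNReal.ofReal_pow hr0.le,
    ← ENNReal.ofReal_mul (by positivity)]
  congr 1
  rw [NNReal.coe_real_pi]
  ring

theorem hasAngle_out (t : Affine.Triangle ℝ ℂ) {x : ℂ} (hx : x ∉ reg t) :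
    HasAngle (reg t) x 0 := by
  obtain ⟨ε, hε, hsub⟩ := Metric.isOpen_iff.1 (reg_closed t).isOpen_compl x hx
  refine ⟨ε, hε, fun r hr0 hr => ?_⟩
  have h1 : reg t ∩ Metric.ball x r = ∅ := by
    rw [Set.eq_empty_iff_forall_notMem]
    rintro z ⟨hz1, hz2⟩
    exact hsub (Metric.ball_subset_ball hr.le hz2) hz1
  rw [h1, measure_empty]
  simp

theorem null_line (t : Affine.Triangle ℝ ℂ) (m : Fin 3) :
    volume {z : ℂ | (bas t).coord m z = 0} = 0 := by
  have h := Measure.addHaar_affineSubspace (volume : Measure ℂ)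
    ((affineSpan ℝ {(0 : ℝ)}).comap ((bas t).coord m)) (by
      intro htop
      have h1 : t.points m ∈ ((affineSpan ℝ {(0 : ℝ)}).comap ((bas t).coord m)) := by
        rw [htop]
        exact AffineSubspace.mem_top ℝ ℂ _
      rw [AffineSubspace.mem_comap, AffineSubspace.mem_affineSpan_singleton] at h1
      have h2 : (bas t).coord m (t.points m) = 1 := (bas t).coord_apply_eq m
      rw [h2] at h1
      exact one_ne_zero h1)
  convert h using 2
  ext z
  simp

/-- the angle at a point of a side that is not a corner -/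
theorem hasAngle_side (t : Affine.Triangle ℝ ℂ) (m : Fin 3) {x : ℂ}
    (h0 : (bas t).coord m x = 0) (h1 : 0 < (bas t).coord (m + 1) x)
    (h2 : 0 < (bas t).coord (m + 2) x) : HasAngle (reg t) x Real.pi := by
  obtain ⟨ε1, hε1, hs1⟩ := coord_small t (m + 1) h1
  obtain ⟨ε2, hε2, hs2⟩ := coord_small t (m + 2) h2
  refine ⟨min ε1 ε2, lt_min hε1 hε2, fun r hr0 hr => ?_⟩
  have hr1 : r < ε1 := lt_of_lt_of_le hr (min_le_left _ _)
  have hr2 : r < ε2 := lt_of_lt_of_le hr (min_le_right _ _)
  set Hp : Set ℂ := {z | 0 ≤ (bas t).coord m z} with hHp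
  set Hm : Set ℂ := {z | (bas t).coord m z ≤ 0} with hHm
  have hreg : reg t ∩ Metric.ball x r = Hp ∩ Metric.ball x r := by
    ext z
    constructor
    · rintro ⟨hz, hzb⟩
      rw [reg_eq] at hz
      exact ⟨hz m, hzb⟩
    · rintro ⟨hz, hzb⟩
      refine ⟨?_, hzb⟩
      rw [reg_eq, Set.mem_ofPred_eq, idx3 m]
      exact ⟨hz, (hs1 z (Metric.ball_subset_ball hr1.le hzb)).le,
        (hs2 z (Metric.ball_subset_ball hr2.le hzb)).le⟩
  rw [hreg]
  -- reflection in the point `x`
  have hmeas : MeasurePreserving (fun z : ℂ => (2 * x) - z) volume volume :=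
    Measure.measurePreserving_sub_left volume (2 * x)
  have hHpm : MeasurableSet (Hp ∩ Metric.ball x r) :=
    (isClosed_le continuous_const (coord_cont t m)).measurableSet.inter measurableSet_ball
  have hHmm : MeasurableSet (Hm ∩ Metric.ball x r) :=
    (isClosed_le (coord_cont t m) continuous_const).measurableSet.inter measurableSet_ball
  have hrefl : ∀ z : ℂ, (bas t).coord m (2 * x - z) = -(bas t).coord m z := by
    intro z
    have e : (2 : ℂ) * x - z = AffineMap.lineMap z x (2 : ℝ) := by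
      rw [AffineMap.lineMap_apply]
      simp only [vsub_eq_sub, vadd_eq_add, Complex.real_smul]
      push_cast
      ring
    rw [e, AffineMap.apply_lineMap, h0, AffineMap.lineMap_apply]
    simp
    ring
  have hpre : (fun z : ℂ => (2 * x) - z) ⁻¹' (Hp ∩ Metric.ball x r) = Hm ∩ Metric.ball x r := by
    ext z
    have hb : 2 * x - z ∈ Metric.ball x r ↔ z ∈ Metric.ball x r := by
      rw [mem_ball_iff_norm, mem_ball_iff_norm]
      have : 2 * x - z - x = -(z - x) := by ring
      rw [this, norm_neg]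
    constructor
    · rintro ⟨ha, hb'⟩
      refine ⟨?_, hb.1 hb'⟩
      have ha' : 0 ≤ (bas t).coord m (2 * x - z) := ha
      rw [hrefl] at ha'
      show (bas t).coord m z ≤ 0
      linarith
    · rintro ⟨ha, hb'⟩
      refine ⟨?_, hb.2 hb'⟩
      have ha' : (bas t).coord m z ≤ 0 := ha
      show 0 ≤ (bas t).coord m (2 * x - z)
      rw [hrefl]
      linarith
  have heq : volume (Hp ∩ Metric.ball x r) = volume (Hm ∩ Metric.ball x r) := by
    rw [← hpre, hmeas.measure_preimage hHpm.nullMeasurableSet]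
  have hunion : (Hp ∩ Metric.ball x r) ∪ (Hm ∩ Metric.ball x r) = Metric.ball x r := by
    ext z
    constructor
    · rintro (h | h)
      · exact h.2
      · exact h.2
    · intro h
      rcases le_total 0 ((bas t).coord m z) with h3 | h3
      · exact Or.inl ⟨h3, h⟩
      · exact Or.inr ⟨h3, h⟩
  have hdisj : AEDisjoint volume (Hp ∩ Metric.ball x r) (Hm ∩ Metric.ball x r) := by
    have hsub : (Hp ∩ Metric.ball x r) ∩ (Hm ∩ Metric.ball x r) ⊆
        {z : ℂ | (bas t).coord m z = 0} := by
      rintro z ⟨⟨ha, _⟩, ⟨hb, _⟩⟩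
      exact le_antisymm hb ha
    exact measure_mono_null hsub (null_line t m)
  have hsum := measure_union₀ hHmm.nullMeasurableSet hdisj
  rw [hunion, ← heq, Complex.volume_ball, ← ENNReal.ofReal_coe_nnreal,
    ← ENNReal.ofReal_pow hr0.le, ← ENNReal.ofReal_mul (by positivity), NNReal.coe_real_pi] at hsum
  have hne : volume (Hp ∩ Metric.ball x r) ≠ ⊤ := by
    intro h
    rw [h] at hsum
    simp at hsum
  rw [← ENNReal.ofReal_toReal hne]
  have h3 := congrArg ENNReal.toReal hsum
  rw [ENNReal.toReal_add hne hne, ENNReal.toReal_ofReal (by positivity)] at h3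
  congr 1
  linarith

theorem side_exists (t : Affine.Triangle ℝ ℂ) {x : ℂ} (hx : x ∈ reg t)
    (hi : x ∉ interior (reg t)) (hc : ∀ m, t.points m ≠ x) :
    ∃ m, (bas t).coord m x = 0 ∧ 0 < (bas t).coord (m + 1) x ∧ 0 < (bas t).coord (m + 2) x := by
  rw [reg_eq] at hx
  have hx' : ∀ i, 0 ≤ (bas t).coord i x := hx
  rw [int_reg] at hi
  have hi' : ∃ m, (bas t).coord m x ≤ 0 := by
    by_contra hcon
    push Not at hcon
    exact hi hcon
  obtain ⟨m, hm⟩ := hi'
  have hm0 : (bas t).coord m x = 0 := le_antisymm hm (hx' m)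
  refine ⟨m, hm0, ?_, ?_⟩
  · rcases (hx' (m + 1)).lt_or_eq with h | h
    · exact h
    · exfalso
      have h1 := expand t (m + 2) x
      have e1 : m + 2 + 1 = m := by
        clear * -
        revert m
        decide
      have e2 : m + 2 + 2 = m + 1 := by
        clear * -
        revert m
        decide
      rw [e1, e2, hm0, ← h] at h1
      simp at h1
      exact hc (m + 2) (sub_eq_zero.1 h1).symm
  · rcases (hx' (m + 2)).lt_or_eq with h | h
    · exact h
    · exfalso
      have h1 := expand t (m + 1) x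
      have e1 : m + 1 + 1 = m + 2 := by
        clear * -
        revert m
        decide
      have e2 : m + 1 + 2 = m := by
        clear * -
        revert m
        decide
      rw [e1, e2, hm0, ← h] at h1
      simp at h1
      exact hc (m + 1) (sub_eq_zero.1 h1).symm

end Pool.Agent.R171.Dis
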