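import Mathlib
import Pool.Agent.R171.Dis.Local

/-!
# The angle count in a dissection of a polygon into triangles
-/

namespace Pool.Agent.R171.Dis

open MeasureTheory Set Finset

/-- the angle of a triangle at the corner `m` -/
noncomputable def cornerAngle (t : Affine.Triangle ℝ ℂ) (m : Fin 3) : ℝ :=
  EuclideanGeometry.angle (t.points (m + 1)) (t.points m) (t.points (m + 2))

theorem angle_sum (t : Affine.Triangle ℝ ℂ) : ∑ m, cornerAngle t m = Real.pi := by
  have h01 : t.points 1 ≠ t.points 0 := fun h => by
    have := t.independent.injective h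
    exact absurd this (by decide)
  have := EuclideanGeometry.angle_add_angle_add_angle_eq_pi (t.points 2) h01
  rw [Fin.sum_univ_three]
  unfold cornerAngle
  show EuclideanGeometry.angle (t.points 1) (t.points 0) (t.points 2) +
    EuclideanGeometry.angle (t.points 2) (t.points 1) (t.points 0) +
    EuclideanGeometry.angle (t.points 0) (t.points 2) (t.points 1) = Real.pi
  have e0 := EuclideanGeometry.angle_comm (t.points 1) (t.points 0) (t.points 2)
  have e1 := EuclideanGeometry.angle_comm (t.points 2) (t.points 1) (t.points 0)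
  have e2 := EuclideanGeometry.angle_comm (t.points 0) (t.points 2) (t.points 1)
  linarith

theorem cornerAngle_lower {t : Affine.Triangle ℝ ℂ} {α : ℝ} (h : ∀ m, cornerAngle t m ≤ α)
    (m : Fin 3) : Real.pi - 2 * α ≤ cornerAngle t m := by
  have hs := angle_sum t
  rw [Fin.sum_univ_three] at hs
  have h0 := h 0
  have h1 := h 1
  have h2 := h 2
  fin_cases m
  · show _ ≤ cornerAngle t 0
    linarith
  · show _ ≤ cornerAngle t 1
    linarith
  · show _ ≤ cornerAngle t 2
    linarith

open Classical in
/-- number of corners at `x` -/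
noncomputable def cnt (t : Affine.Triangle ℝ ℂ) (x : ℂ) : ℕ := ∑ m, if t.points m = x then 1 else 0

open Classical in
/-- sum of the angles of the corners at `x` -/
noncomputable def csum (t : Affine.Triangle ℝ ℂ) (x : ℂ) : ℝ :=
  ∑ m, if t.points m = x then cornerAngle t m else 0

open Classical in
/-- indicator of `x` being on a side, not at a corner -/
noncomputable def sid (t : Affine.Triangle ℝ ℂ) (x : ℂ) : ℕ :=
  if x ∈ reg t ∧ x ∉ interior (reg t) ∧ ∀ m, t.points m ≠ x then 1 else 0

open Classical in
/-- indicator of the interior -/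
noncomputable def inn (t : Affine.Triangle ℝ ℂ) (x : ℂ) : ℕ :=
  if x ∈ interior (reg t) then 1 else 0

theorem corner_not_int (t : Affine.Triangle ℝ ℂ) (m : Fin 3) : t.points m ∉ interior (reg t) := by
  intro h
  rw [int_reg] at h
  have h1 : 0 < (bas t).coord (m + 1) (t.points m) := h (m + 1)
  have h2 : (bas t).coord (m + 1) (t.points m) = 0 := (bas t).coord_apply_ne (ne1 m)
  linarith

/-- local angle of a triangle at any point -/
noncomputable def loc (t : Affine.Triangle ℝ ℂ) (x : ℂ) : ℝ :=
  csum t x + Real.pi * sid t x + 2 * Real.pi * inn t x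

theorem cornerAngle_nonneg (t : Affine.Triangle ℝ ℂ) (m : Fin 3) : 0 ≤ cornerAngle t m :=
  EuclideanGeometry.angle_nonneg _ _ _

theorem csum_nonneg (t : Affine.Triangle ℝ ℂ) (x : ℂ) : 0 ≤ csum t x := by
  classical
  unfold csum
  apply sum_nonneg
  intro m _
  split_ifs
  · exact cornerAngle_nonneg t m
  · exact le_rfl

theorem loc_nonneg (t : Affine.Triangle ℝ ℂ) (x : ℂ) : 0 ≤ loc t x := by
  unfold loc
  have := csum_nonneg t x
  have := Real.pi_pos
  positivity

theorem hasAngle_loc (t : Affine.Triangle ℝ ℂ) (x : ℂ) : HasAngle (reg t) x (loc t x) := by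
  classical
  by_cases hc : ∃ m, t.points m = x
  · obtain ⟨m, rfl⟩ := hc
    have h1 : csum t (t.points m) = cornerAngle t m := by
      unfold csum
      rw [sum_eq_single m]
      · rw [if_pos rfl]
      · intro j _ hj
        rw [if_neg]
        intro h
        exact hj (t.independent.injective h)
      · intro h
        exact absurd (Finset.mem_univ m) h
    have h2 : sid t (t.points m) = 0 := by
      unfold sid
      rw [if_neg]
      rintro ⟨_, _, h⟩
      exact h m rfl
    have h3 : inn t (t.points m) = 0 := by
      unfold inn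
      rw [if_neg (corner_not_int t m)]
    unfold loc
    rw [h1, h2, h3]
    simp only [Nat.cast_zero, mul_zero, add_zero]
    exact hasAngle_corner t m
  · push Not at hc
    have h1 : csum t x = 0 := by
      unfold csum
      apply sum_eq_zero
      intro m _
      rw [if_neg (hc m)]
    by_cases hi : x ∈ interior (reg t)
    · have h2 : sid t x = 0 := by
        unfold sid
        rw [if_neg]
        rintro ⟨_, h, _⟩
        exact h hi
      have h3 : inn t x = 1 := by
        unfold inn
        rw [if_pos hi]
      unfold loc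
      rw [h1, h2, h3]
      simp only [Nat.cast_zero, mul_zero, add_zero, Nat.cast_one, mul_one, zero_add]
      exact hasAngle_int t hi
    · have h3 : inn t x = 0 := by
        unfold inn
        rw [if_neg hi]
      by_cases hr : x ∈ reg t
      · have h2 : sid t x = 1 := by
          unfold sid
          rw [if_pos ⟨hr, hi, hc⟩]
        unfold loc
        rw [h1, h2, h3]
        simp only [Nat.cast_zero, mul_zero, add_zero, Nat.cast_one, mul_one, zero_add]
        obtain ⟨m, h4, h5, h6⟩ := side_exists t hr hi hc
        exact hasAngle_side t m h4 h5 h6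
      · have h2 : sid t x = 0 := by
          unfold sid
          rw [if_neg]
          rintro ⟨h, _⟩
          exact hr h
        unfold loc
        rw [h1, h2, h3]
        simp only [Nat.cast_zero, mul_zero, add_zero]
        exact hasAngle_out t hr

theorem HasAngle.eventually {A : Set ℂ} {x : ℂ} {θ : ℝ} (h : HasAngle A x θ) :
    ∀ᶠ r : ℝ in nhdsWithin 0 (Set.Ioi 0),
      volume (A ∩ Metric.ball x r) = ENNReal.ofReal (θ / 2 * r ^ 2) := by
  obtain ⟨ε, hε, h1⟩ := h
  rw [Filter.Eventually, mem_nhdsGT_iff_exists_Ioo_subset]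
  exact ⟨ε, hε, fun r hr => h1 r hr.1 hr.2⟩

section dissection

variable {ι : Type*} [Fintype ι] {P : Set ℂ} {T : ι → Affine.Triangle ℝ ℂ}

theorem volume_add (hcov : (⋃ j, reg (T j)) = P)
    (hdis : ∀ i j, i ≠ j → Disjoint (interior (reg (T i))) (interior (reg (T j)))) (B : Set ℂ)
    (hB : MeasurableSet B) : volume (P ∩ B) = ∑ j, volume (reg (T j) ∩ B) := by
  rw [← hcov, Set.iUnion_inter, measure_iUnion₀]
  · rw [tsum_fintype]
  · intro i j hij
    show AEDisjoint volume (reg (T i) ∩ B) (reg (T j) ∩ B)
    have hsub : (reg (T i) ∩ B) ∩ (reg (T j) ∩ B) ⊆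
        frontier (reg (T i)) ∪ frontier (reg (T j)) := by
      rintro z ⟨⟨h1, _⟩, ⟨h2, _⟩⟩
      by_contra hcon
      rw [Set.mem_union, not_or] at hcon
      obtain ⟨h3, h4⟩ := hcon
      rw [(reg_closed (T i)).frontier_eq] at h3
      rw [(reg_closed (T j)).frontier_eq] at h4
      have h5 : z ∈ interior (reg (T i)) := by
        by_contra h
        exact h3 ⟨h1, h⟩
      have h6 : z ∈ interior (reg (T j)) := by
        by_contra h
        exact h4 ⟨h2, h⟩
      exact Set.disjoint_left.1 (hdis i j hij) h5 h6
    apply measure_mono_null hsub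
    rw [measure_union_null_iff]
    exact ⟨(reg_convex (T i)).addHaar_frontier volume, (reg_convex (T j)).addHaar_frontier volume⟩
  · intro j
    exact ((reg_closed (T j)).measurableSet.inter hB).nullMeasurableSet

theorem angle_add (hcov : (⋃ j, reg (T j)) = P)
    (hdis : ∀ i j, i ≠ j → Disjoint (interior (reg (T i))) (interior (reg (T j)))) {x : ℂ}
    {θ : ℝ} (hθ : 0 ≤ θ) (h : HasAngle P x θ) : θ = ∑ j, loc (T j) x := by
  have h1 := h.eventually
  have h2 : ∀ᶠ r : ℝ in nhdsWithin 0 (Set.Ioi 0), ∀ j,
      volume (reg (T j) ∩ Metric.ball x r) = ENNReal.ofReal (loc (T j) x / 2 * r ^ 2) :=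
    Filter.eventually_all.2 fun j => (hasAngle_loc (T j) x).eventually
  have h3 : ∀ᶠ r : ℝ in nhdsWithin 0 (Set.Ioi 0), r ∈ Set.Ioi (0 : ℝ) := self_mem_nhdsWithin
  obtain ⟨r, ⟨hr1, hr2⟩, hr3⟩ := ((h1.and h2).and h3).exists
  have hr0 : 0 < r := hr3
  have h4 := volume_add hcov hdis (Metric.ball x r) measurableSet_ball
  rw [hr1, sum_congr rfl (fun j _ => hr2 j), ← ENNReal.ofReal_sum_of_nonneg] at h4
  · have h5 := (ENNReal.ofReal_eq_ofReal_iff (by positivity) (by
      apply sum_nonneg
      intro j _
      have := loc_nonneg (T j) x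
      positivity)).1 h4
    rw [← sum_mul, ← sum_div] at h5
    have h6 : (0 : ℝ) < r ^ 2 := by positivity
    have h7 := mul_right_cancel₀ h6.ne' h5
    linarith
  · intro j _
    have := loc_nonneg (T j) x
    positivity

end dissection

end Pool.Agent.R171.Dis
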