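import Mathlib
import Pool.Agent.R171.Dis.Count

/-!
# Necessity of Gerver's conditions
-/

namespace Pool.Agent.R171.Dis

open MeasureTheory Finset

/-- a polygon with its vertices and interior angles -/
structure Polyg {n : ℕ} (P : Set ℂ) (x : Fin n → ℂ) (θ : Fin n → ℝ) : Prop where
  inj : Function.Injective x
  range : ∀ i, 0 < θ i ∧ θ i < 2 * Real.pi
  angle : ∀ i, HasAngle P (x i) (θ i)
  other : ∀ y ∈ P, (∀ i, x i ≠ y) → HasAngle P y Real.pi ∨ HasAngle P y (2 * Real.pi)
  angle_sum : ∑ i, θ i = (n - 2) * Real.pi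

/-- the conditions for `k` at `α` -/
def CondK {n : ℕ} (θ : Fin n → ℝ) (α : ℝ) (k : Fin n → ℕ) : Prop :=
  (∀ i, 1 ≤ k i ∧ k i * (Real.pi - 2 * α) ≤ θ i ∧ θ i ≤ k i * α) ∧
  (α < 2 * Real.pi / 5 → 6 ≤ ∑ i, (3 - (k i : ℤ))) ∧
  (α < 5 * Real.pi / 14 → ∑ i, (3 - (k i : ℤ)) = 6)

section

variable {n : ℕ} {ι : Type*} [Fintype ι] {P : Set ℂ} {x : Fin n → ℂ} {θ : Fin n → ℝ}
  {T : ι → Affine.Triangle ℝ ℂ} {α : ℝ}

/-- total number of corners at `y` -/
noncomputable def cT (T : ι → Affine.Triangle ℝ ℂ) (y : ℂ) : ℕ := ∑ j, cnt (T j) y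

/-- total number of sides through `y` -/
noncomputable def hT (T : ι → Affine.Triangle ℝ ℂ) (y : ℂ) : ℕ := ∑ j, sid (T j) y

/-- total number of interiors at `y` -/
noncomputable def fT (T : ι → Affine.Triangle ℝ ℂ) (y : ℂ) : ℕ := ∑ j, inn (T j) y

/-- total corner angle at `y` -/
noncomputable def sT (T : ι → Affine.Triangle ℝ ℂ) (y : ℂ) : ℝ := ∑ j, csum (T j) y

theorem loc_sum (T : ι → Affine.Triangle ℝ ℂ) (y : ℂ) :
    ∑ j, loc (T j) y = sT T y + Real.pi * hT T y + 2 * Real.pi * fT T y := by
  unfold loc sT hT fT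
  rw [sum_add_distrib, sum_add_distrib, ← mul_sum, ← mul_sum]
  push_cast
  rfl

theorem sT_bounds (hα : ∀ j m, cornerAngle (T j) m ≤ α) (y : ℂ) :
    (cT T y : ℝ) * (Real.pi - 2 * α) ≤ sT T y ∧ sT T y ≤ cT T y * α := by
  classical
  unfold cT sT
  push_cast
  rw [sum_mul, sum_mul]
  constructor
  · apply sum_le_sum
    intro j _
    unfold cnt csum
    push_cast
    rw [sum_mul]
    apply sum_le_sum
    intro m _
    split_ifs
    · rw [one_mul]
      exact cornerAngle_lower (hα j) m
    · rw [zero_mul]
  · apply sum_le_sum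
    intro j _
    unfold cnt csum
    push_cast
    rw [sum_mul]
    apply sum_le_sum
    intro m _
    split_ifs
    · rw [one_mul]
      exact hα j m
    · rw [zero_mul]

theorem main_small (hP : Polyg P x θ) (hcov : (⋃ j, reg (T j)) = P)
    (hdis : ∀ i j, i ≠ j → Disjoint (interior (reg (T i))) (interior (reg (T j))))
    (hα : ∀ j m, cornerAngle (T j) m ≤ α) (hlow : Real.pi / 3 ≤ α) (hup : α < Real.pi / 2) :
    ∃ k, CondK θ α k := by
  classical
  have hpi := Real.pi_pos
  have hgap : 0 < Real.pi - 2 * α := by linarith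
  -- all corner and polygon vertices
  let X : Finset ℂ := univ.image x
  let V : Finset ℂ := (univ.image (fun p : ι × Fin 3 => (T p.1).points p.2)) ∪ X
  have hXV : X ⊆ V := subset_union_right
  have hcorner : ∀ j m, (T j).points m ∈ V := by
    intro j m
    apply mem_union_left
    exact mem_image.2 ⟨(j, m), mem_univ _, rfl⟩
  have hxX : ∀ i, x i ∈ X := fun i => mem_image_of_mem _ (mem_univ i)
  have hsT0 : ∀ y, 0 ≤ sT T y := fun y => sum_nonneg fun j _ => csum_nonneg _ _
  -- local equations
  have hloc : ∀ y θ', 0 ≤ θ' → HasAngle P y θ' →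
      θ' = sT T y + Real.pi * hT T y + 2 * Real.pi * fT T y := by
    intro y θ' h0 h
    rw [← loc_sum]
    exact angle_add hcov hdis h0 h
  -- at polygon vertices
  have hvert : ∀ i, fT T (x i) = 0 ∧ θ i = sT T (x i) + Real.pi * hT T (x i) := by
    intro i
    have h1 := hloc (x i) (θ i) (hP.range i).1.le (hP.angle i)
    have h2 := hsT0 (x i)
    have h3 : fT T (x i) = 0 := by
      by_contra hne
      have h4 : (1 : ℝ) ≤ fT T (x i) := by exact_mod_cast Nat.one_le_iff_ne_zero.2 hne
      have h5 : 0 ≤ Real.pi * hT T (x i) := by positivity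
      have h6 : 2 * Real.pi * 1 ≤ 2 * Real.pi * fT T (x i) :=
        mul_le_mul_of_nonneg_left h4 (by positivity)
      have := (hP.range i).2
      linarith
    refine ⟨h3, ?_⟩
    rw [h3] at h1
    simpa using h1
  -- at the other corners
  have hother : ∀ y ∈ V, y ∉ X → fT T y = 0 ∧ 1 ≤ cT T y ∧
      ((hT T y = 0 ∧ sT T y = Real.pi) ∨ (hT T y = 0 ∧ sT T y = 2 * Real.pi) ∨
        (hT T y = 1 ∧ sT T y = Real.pi ∧ HasAngle P y (2 * Real.pi))) ∧
      ((sT T y + Real.pi * hT T y = Real.pi) ∨ (sT T y + Real.pi * hT T y = 2 * Real.pi)) := by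
    intro y hy hyX
    have hyc : ∃ p : ι × Fin 3, (T p.1).points p.2 = y := by
      rcases mem_union.1 hy with h | h
      · obtain ⟨p, _, hp⟩ := mem_image.1 h
        exact ⟨p, hp⟩
      · exact absurd h hyX
    obtain ⟨⟨j, m⟩, hjm⟩ := hyc
    have hyP : y ∈ P := by
      rw [← hcov, Set.mem_iUnion]
      exact ⟨j, by rw [← hjm]; exact subset_convexHull ℝ _ ⟨m, rfl⟩⟩
    have hc1 : 1 ≤ cT T y := by
      unfold cT
      calc 1 ≤ cnt (T j) y := by
            unfold cnt
            calc 1 = (if (T j).points m = y then 1 else 0) := by rw [if_pos hjm]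
              _ ≤ _ := single_le_sum (f := fun m => if (T j).points m = y then 1 else 0)
                (fun _ _ => Nat.zero_le _) (mem_univ m)
        _ ≤ _ := single_le_sum (f := fun j => cnt (T j) y) (fun _ _ => Nat.zero_le _) (mem_univ j)
    have hspos : 0 < sT T y := by
      have h1 := (sT_bounds hα y).1
      have h2 : (1 : ℝ) ≤ cT T y := by exact_mod_cast hc1
      have h3 : 1 * (Real.pi - 2 * α) ≤ cT T y * (Real.pi - 2 * α) :=
        mul_le_mul_of_nonneg_right h2 hgap.le
      linarith
    have hyi : ∀ i, x i ≠ y := by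
      intro i h
      exact hyX (h ▸ hxX i)
    have hh0 : (0 : ℝ) ≤ hT T y := Nat.cast_nonneg _
    have hf0 : (0 : ℝ) ≤ fT T y := Nat.cast_nonneg _
    rcases hP.other y hyP hyi with h | h
    · have h1 := hloc y _ hpi.le h
      have hf : fT T y = 0 := by
        by_contra hne
        have h4 : (1 : ℝ) ≤ fT T y := by exact_mod_cast Nat.one_le_iff_ne_zero.2 hne
        have h5 : 0 ≤ Real.pi * hT T y := by positivity
        have h6 : 2 * Real.pi * 1 ≤ 2 * Real.pi * fT T y :=
          mul_le_mul_of_nonneg_left h4 (by positivity)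
        linarith
      rw [hf] at h1
      have hh : hT T y = 0 := by
        by_contra hne
        have h4 : (1 : ℝ) ≤ hT T y := by exact_mod_cast Nat.one_le_iff_ne_zero.2 hne
        have h6 : Real.pi * 1 ≤ Real.pi * hT T y := mul_le_mul_of_nonneg_left h4 hpi.le
        simp at h1
        linarith
      rw [hh] at h1
      simp at h1
      refine ⟨hf, hc1, Or.inl ⟨hh, h1.symm⟩, Or.inl ?_⟩
      rw [hh, ← h1]
      simp
    · have h1 := hloc y _ (by positivity) h
      have hf : fT T y = 0 := by
        by_contra hne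
        have h4 : (1 : ℝ) ≤ fT T y := by exact_mod_cast Nat.one_le_iff_ne_zero.2 hne
        have h5 : 0 ≤ Real.pi * hT T y := by positivity
        have h6 : 2 * Real.pi * 1 ≤ 2 * Real.pi * fT T y :=
          mul_le_mul_of_nonneg_left h4 (by positivity)
        linarith
      rw [hf] at h1
      simp only [Nat.cast_zero, mul_zero, add_zero] at h1
      have hh : hT T y ≤ 1 := by
        by_contra hne
        push Not at hne
        have h4 : (2 : ℝ) ≤ hT T y := by exact_mod_cast hne
        have h6 : Real.pi * 2 ≤ Real.pi * hT T y := mul_le_mul_of_nonneg_left h4 hpi.le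
        linarith
      refine ⟨hf, hc1, Or.inr ?_, Or.inr h1.symm⟩
      rcases Nat.le_one_iff_eq_zero_or_eq_one.1 hh with h7 | h7
      · left
        rw [h7] at h1
        simp at h1
        exact ⟨h7, h1.symm⟩
      · right
        rw [h7] at h1
        simp only [Nat.cast_one, mul_one] at h1
        exact ⟨h7, by linarith, h⟩
  -- the two totals
  have htot1 : ∑ y ∈ V, sT T y = Real.pi * Fintype.card ι := by
    unfold sT
    rw [sum_comm]
    have h1 : ∀ j, ∑ y ∈ V, csum (T j) y = Real.pi := by
      intro j
      unfold csum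
      rw [sum_comm, ← angle_sum (T j)]
      apply sum_congr rfl
      intro m _
      rw [sum_ite_eq V ((T j).points m), if_pos (hcorner j m)]
    rw [sum_congr rfl (fun j _ => h1 j), sum_const, card_univ, nsmul_eq_mul, mul_comm]
  have htot2 : ∑ y ∈ V, (cT T y : ℝ) = 3 * Fintype.card ι := by
    have h0 : ∑ y ∈ V, cT T y = 3 * Fintype.card ι := by
      unfold cT
      rw [sum_comm]
      have h1 : ∀ j, ∑ y ∈ V, cnt (T j) y = 3 := by
        intro j
        unfold cnt
        rw [sum_comm]
        have h2 : ∀ m : Fin 3, (∑ y ∈ V, if (T j).points m = y then 1 else 0) = 1 := by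
          intro m
          rw [sum_ite_eq V ((T j).points m), if_pos (hcorner j m)]
        rw [sum_congr rfl (fun m _ => h2 m)]
        rfl
      rw [sum_congr rfl (fun j _ => h1 j), sum_const, card_univ, smul_eq_mul, mul_comm]
    exact_mod_cast h0
  -- the weights
  let w : ℂ → ℕ := fun y => cT T y + 3 * hT T y
  have hzero : ∑ y ∈ V, (3 * (sT T y + Real.pi * hT T y) - Real.pi * w y) = 0 := by
    have e : ∀ y, 3 * (sT T y + Real.pi * hT T y) - Real.pi * w y =
        3 * sT T y - Real.pi * cT T y := by
      intro y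
      simp only [w]
      push_cast
      ring
    rw [sum_congr rfl (fun y _ => e y), sum_sub_distrib, ← mul_sum, ← mul_sum, htot1, htot2]
    ring
  have hsplit : ∑ y ∈ V \ X, (Real.pi * w y - 3 * (sT T y + Real.pi * hT T y)) =
      ∑ y ∈ X, (3 * (sT T y + Real.pi * hT T y) - Real.pi * w y) := by
    have h1 := sum_sdiff (f := fun y => 3 * (sT T y + Real.pi * hT T y) - Real.pi * w y) hXV
    rw [hzero] at h1
    have h2 : ∑ y ∈ V \ X, (Real.pi * w y - 3 * (sT T y + Real.pi * hT T y)) =
        -∑ y ∈ V \ X, (3 * (sT T y + Real.pi * hT T y) - Real.pi * w y) := by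
      rw [← sum_neg_distrib]
      apply sum_congr rfl
      intro y _
      ring
    rw [h2]
    linarith
  have hX : ∑ y ∈ X, (3 * (sT T y + Real.pi * hT T y) - Real.pi * w y) =
      Real.pi * ((∑ i, (3 - (w (x i) : ℤ)) : ℤ) - 6 : ℝ) := by
    rw [sum_image (fun i _ j _ h => hP.inj h)]
    have e : ∀ i, 3 * (sT T (x i) + Real.pi * hT T (x i)) - Real.pi * w (x i) =
        3 * θ i - Real.pi * w (x i) := by
      intro i
      rw [(hvert i).2]
    rw [sum_congr rfl (fun i _ => e i), sum_sub_distrib, ← mul_sum, ← mul_sum, hP.angle_sum]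
    push_cast
    rw [sum_sub_distrib]
    simp
    ring
  refine ⟨fun i => w (x i), ?_, ?_, ?_⟩
  · intro i
    obtain ⟨h1, h2⟩ := hvert i
    obtain ⟨b1, b2⟩ := sT_bounds hα (x i)
    have hh0 : (0 : ℝ) ≤ hT T (x i) := Nat.cast_nonneg _
    have p1 : 3 * (Real.pi - 2 * α) ≤ Real.pi := by linarith
    have p2 : Real.pi ≤ 3 * α := by linarith
    refine ⟨?_, ?_, ?_⟩
    · show 1 ≤ w (x i)
      by_contra hcon
      have hw0 : w (x i) = 0 := by omega
      have hc0 : cT T (x i) = 0 := by
        simp only [w] at hw0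
        omega
      have hh0' : hT T (x i) = 0 := by
        simp only [w] at hw0
        omega
      rw [hc0] at b2
      rw [hh0'] at h2
      simp at b2 h2
      have := (hP.range i).1
      linarith
    · simp only [w]
      push_cast
      have q := mul_le_mul_of_nonneg_right p1 hh0
      rw [h2]
      nlinarith
    · simp only [w]
      push_cast
      have q := mul_le_mul_of_nonneg_right p2 hh0
      rw [h2]
      nlinarith
  · intro h25
    have hnn : 0 ≤ ∑ y ∈ V \ X, (Real.pi * w y - 3 * (sT T y + Real.pi * hT T y)) := by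
      apply sum_nonneg
      intro y hy
      rw [mem_sdiff] at hy
      obtain ⟨-, -, h3, -⟩ := hother y hy.1 hy.2
      obtain ⟨b1, b2⟩ := sT_bounds hα y
      have hcr : (0 : ℝ) ≤ cT T y := Nat.cast_nonneg _
      rcases h3 with ⟨h4, h5⟩ | ⟨h4, h5⟩ | ⟨h4, h5, _⟩
      · have hc : 3 ≤ cT T y := by
          by_contra hcon
          have hc2 : (cT T y : ℝ) ≤ 2 := by
            have : cT T y ≤ 2 := by omega
            exact_mod_cast this
          have : (cT T y : ℝ) * α ≤ 2 * α := mul_le_mul_of_nonneg_right hc2 (by linarith)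
          linarith
        have hc' : (3 : ℝ) ≤ cT T y := by exact_mod_cast hc
        simp only [w]
        rw [h4, h5]
        push_cast
        nlinarith
      · have hc : 6 ≤ cT T y := by
          by_contra hcon
          have hc2 : (cT T y : ℝ) ≤ 5 := by
            have : cT T y ≤ 5 := by omega
            exact_mod_cast this
          have : (cT T y : ℝ) * α ≤ 5 * α := mul_le_mul_of_nonneg_right hc2 (by linarith)
          linarith
        have hc' : (6 : ℝ) ≤ cT T y := by exact_mod_cast hc
        simp only [w]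
        rw [h4, h5]
        push_cast
        nlinarith
      · have hc : 3 ≤ cT T y := by
          by_contra hcon
          have hc2 : (cT T y : ℝ) ≤ 2 := by
            have : cT T y ≤ 2 := by omega
            exact_mod_cast this
          have : (cT T y : ℝ) * α ≤ 2 * α := mul_le_mul_of_nonneg_right hc2 (by linarith)
          linarith
        have hc' : (3 : ℝ) ≤ cT T y := by exact_mod_cast hc
        simp only [w]
        rw [h4, h5]
        push_cast
        nlinarith
    rw [hsplit, hX] at hnn
    have h6 : (0 : ℝ) ≤ ((∑ i, (3 - (w (x i) : ℤ)) : ℤ) : ℝ) - 6 := by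
      by_contra hcon
      push Not at hcon
      have := mul_neg_of_pos_of_neg hpi hcon
      linarith
    have h7 : (6 : ℝ) ≤ ((∑ i, (3 - (w (x i) : ℤ)) : ℤ) : ℝ) := by linarith
    exact_mod_cast h7
  · intro h514
    have hz : ∑ y ∈ V \ X, (Real.pi * w y - 3 * (sT T y + Real.pi * hT T y)) = 0 := by
      apply sum_eq_zero
      intro y hy
      rw [mem_sdiff] at hy
      obtain ⟨-, -, h3, -⟩ := hother y hy.1 hy.2
      obtain ⟨b1, b2⟩ := sT_bounds hα y
      have hgap2 : 2 * Real.pi / 7 < Real.pi - 2 * α := by linarith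
      rcases h3 with ⟨h4, h5⟩ | ⟨h4, h5⟩ | ⟨h4, h5, _⟩
      · have hc : cT T y = 3 := by
          apply le_antisymm
          · by_contra hcon
            have hc2 : (4 : ℝ) ≤ cT T y := by
              have : 4 ≤ cT T y := by omega
              exact_mod_cast this
            have : 4 * (Real.pi - 2 * α) ≤ cT T y * (Real.pi - 2 * α) :=
              mul_le_mul_of_nonneg_right hc2 hgap.le
            linarith
          · by_contra hcon
            have hc2 : (cT T y : ℝ) ≤ 2 := by
              have : cT T y ≤ 2 := by omega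
              exact_mod_cast this
            have : (cT T y : ℝ) * α ≤ 2 * α := mul_le_mul_of_nonneg_right hc2 (by linarith)
            linarith
        simp only [w]
        rw [h4, h5, hc]
        push_cast
        ring
      · have hc : cT T y = 6 := by
          apply le_antisymm
          · by_contra hcon
            have hc2 : (7 : ℝ) ≤ cT T y := by
              have : 7 ≤ cT T y := by omega
              exact_mod_cast this
            have : 7 * (Real.pi - 2 * α) ≤ cT T y * (Real.pi - 2 * α) :=
              mul_le_mul_of_nonneg_right hc2 hgap.le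
            linarith
          · by_contra hcon
            have hc2 : (cT T y : ℝ) ≤ 5 := by
              have : cT T y ≤ 5 := by omega
              exact_mod_cast this
            have : (cT T y : ℝ) * α ≤ 5 * α := mul_le_mul_of_nonneg_right hc2 (by linarith)
            linarith
        simp only [w]
        rw [h4, h5, hc]
        push_cast
        ring
      · have hc : cT T y = 3 := by
          apply le_antisymm
          · by_contra hcon
            have hc2 : (4 : ℝ) ≤ cT T y := by
              have : 4 ≤ cT T y := by omega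
              exact_mod_cast this
            have : 4 * (Real.pi - 2 * α) ≤ cT T y * (Real.pi - 2 * α) :=
              mul_le_mul_of_nonneg_right hc2 hgap.le
            linarith
          · by_contra hcon
            have hc2 : (cT T y : ℝ) ≤ 2 := by
              have : cT T y ≤ 2 := by omega
              exact_mod_cast this
            have : (cT T y : ℝ) * α ≤ 2 * α := mul_le_mul_of_nonneg_right hc2 (by linarith)
            linarith
        simp only [w]
        rw [h4, h5, hc]
        push_cast
        ring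
    rw [hsplit, hX] at hz
    have h6 : ((∑ i, (3 - (w (x i) : ℤ)) : ℤ) : ℝ) - 6 = 0 := by
      rcases mul_eq_zero.1 hz with h | h
      · exact absurd h hpi.ne'
      · exact h
    have h7 : ((∑ i, (3 - (w (x i) : ℤ)) : ℤ) : ℝ) = 6 := by linarith
    exact_mod_cast h7

/-- Cond for large `α` -/
theorem cond_big (hP : Polyg P x θ) (h : Real.pi / 2 ≤ α) : ∃ k, CondK θ α k := by
  have hpi := Real.pi_pos
  refine ⟨fun i => ⌈θ i / α⌉₊ + 1, ?_, ?_, ?_⟩
  · intro i
    refine ⟨Nat.le_add_left 1 _, ?_, ?_⟩
    · have h1 : ((⌈θ i / α⌉₊ + 1 : ℕ) : ℝ) * (Real.pi - 2 * α) ≤ 0 := by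
        apply mul_nonpos_of_nonneg_of_nonpos (Nat.cast_nonneg _)
        linarith
      have := (hP.range i).1
      linarith
    · have h1 := Nat.le_ceil (θ i / α)
      rw [div_le_iff₀ (by linarith)] at h1
      push_cast
      nlinarith
  · intro h1
    linarith
  · intro h1
    linarith

/-- necessity for a dissection -/
theorem main_all (hP : Polyg P x θ) (hcov : (⋃ j, reg (T j)) = P)
    (hdis : ∀ i j, i ≠ j → Disjoint (interior (reg (T i))) (interior (reg (T j))))
    (hα : ∀ j m, cornerAngle (T j) m ≤ α) : Real.pi / 3 ≤ α ∧ ∃ k, CondK θ α k := by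
  have hpi := Real.pi_pos
  have hne : Nonempty ι := by
    by_contra hcon
    rw [not_nonempty_iff] at hcon
    have hn : 0 < n := by
      rcases Nat.eq_zero_or_pos n with rfl | h
      · have := hP.angle_sum
        simp at this
      · exact h
    have h1 := angle_add hcov hdis (hP.range ⟨0, hn⟩).1.le (hP.angle ⟨0, hn⟩)
    rw [Finset.univ_eq_empty, sum_empty] at h1
    have := (hP.range ⟨0, hn⟩).1
    linarith
  obtain ⟨j⟩ := hne
  have h3 : Real.pi / 3 ≤ α := by
    have h1 := angle_sum (T j)
    rw [Fin.sum_univ_three] at h1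
    have := hα j 0
    have := hα j 1
    have := hα j 2
    linarith
  refine ⟨h3, ?_⟩
  rcases lt_or_ge α (Real.pi / 2) with h | h
  · exact main_small hP hcov hdis hα h3 h
  · exact cond_big hP h

end

end Pool.Agent.R171.Dis
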