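import Mathlib
import Pool.Agent.R171.Dis.Main

/-!
# Passing to the infimum
-/

namespace Pool.Agent.R171.Dis

open Finset Filter

theorem cond_inf {n : ℕ} {P : Set ℂ} {x : Fin n → ℂ} {θ : Fin n → ℝ} (hP : Polyg P x θ)
    {A : Set ℝ} (hne : A.Nonempty) (hA : ∀ α ∈ A, Real.pi / 3 ≤ α ∧ ∃ k, CondK θ α k) :
    Real.pi / 3 ≤ sInf A ∧ ∃ k, CondK θ (sInf A) k := by
  classical
  have hpi := Real.pi_pos
  have hbdd : BddBelow A := ⟨Real.pi / 3, fun α h => (hA α h).1⟩
  have hlow : Real.pi / 3 ≤ sInf A := le_csInf hne fun α h => (hA α h).1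
  refine ⟨hlow, ?_⟩
  rcases lt_or_ge (sInf A) (Real.pi / 2) with hlt | hge
  swap
  · exact cond_big hP hge
  have hcl : sInf A ∈ closure A := csInf_mem_closure hne hbdd
  have hbot : (nhdsWithin (sInf A) A).NeBot := mem_closure_iff_nhdsWithin_neBot.1 hcl
  have hid : Tendsto (fun a : ℝ => a) (nhdsWithin (sInf A) A) (nhds (sInf A)) :=
    nhdsWithin_le_nhds
  set μ := (sInf A + Real.pi / 2) / 2 with hμ
  have hμ1 : sInf A < μ := by rw [hμ]; linarith
  have hμ2 : μ < Real.pi / 2 := by rw [hμ]; linarith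
  -- a bound for `k`
  have hB : ∃ B : ℕ, ∀ i, θ i / (Real.pi - 2 * μ) ≤ B := by
    obtain ⟨B, hB⟩ := exists_nat_ge (∑ i, |θ i / (Real.pi - 2 * μ)|)
    refine ⟨B, fun i => ?_⟩
    calc θ i / (Real.pi - 2 * μ) ≤ |θ i / (Real.pi - 2 * μ)| := le_abs_self _
      _ ≤ ∑ i, |θ i / (Real.pi - 2 * μ)| :=
        single_le_sum (f := fun i => |θ i / (Real.pi - 2 * μ)|) (fun _ _ => abs_nonneg _)
          (mem_univ i)
      _ ≤ B := hB
  obtain ⟨B, hB⟩ := hB
  have hev : ∀ᶠ a in nhdsWithin (sInf A) A, ∃ k ∈ Fintype.piFinset (fun _ : Fin n => range (B + 1)),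
      CondK θ a k := by
    have h1 : ∀ᶠ a in nhdsWithin (sInf A) A, a ∈ A := self_mem_nhdsWithin
    have h2 : ∀ᶠ a in nhdsWithin (sInf A) A, a < μ := hid.eventually (gt_mem_nhds hμ1)
    filter_upwards [h1, h2] with a ha haμ
    obtain ⟨-, k, hk⟩ := hA a ha
    refine ⟨k, ?_, hk⟩
    rw [Fintype.mem_piFinset]
    intro i
    rw [mem_range]
    have h3 := (hk.1 i).2.1
    have h4 : (k i : ℝ) * (Real.pi - 2 * μ) ≤ θ i := by
      have : (k i : ℝ) * (Real.pi - 2 * μ) ≤ k i * (Real.pi - 2 * a) :=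
        mul_le_mul_of_nonneg_left (by linarith) (Nat.cast_nonneg _)
      linarith
    have h5 : (k i : ℝ) ≤ B := by
      have h6 : (k i : ℝ) ≤ θ i / (Real.pi - 2 * μ) := by
        rw [le_div_iff₀ (by linarith)]
        exact h4
      exact h6.trans (hB i)
    have h6 : k i ≤ B := by exact_mod_cast h5
    omega
  have hfreq : ∃ k ∈ Fintype.piFinset (fun _ : Fin n => range (B + 1)),
      ∃ᶠ a in nhdsWithin (sInf A) A, CondK θ a k := by
    by_contra hcon
    push Not at hcon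
    have h1 : ∀ᶠ a in nhdsWithin (sInf A) A,
        ∀ k ∈ Fintype.piFinset (fun _ : Fin n => range (B + 1)), ¬ CondK θ a k := by
      rw [Filter.eventually_all_finset]
      intro k hk
      exact hcon k hk
    obtain ⟨a, ⟨k, hk, h2⟩, h3⟩ := (hev.and h1).exists
    exact h3 k hk h2
  obtain ⟨k, -, hk⟩ := hfreq
  refine ⟨k, ?_, ?_, ?_⟩
  · intro i
    obtain ⟨a, ha⟩ := hk.exists
    refine ⟨(ha.1 i).1, ?_, ?_⟩
    · have hc : IsClosed {a : ℝ | (k i : ℝ) * (Real.pi - 2 * a) ≤ θ i} :=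
        isClosed_le (by fun_prop) continuous_const
      exact hc.mem_of_frequently_of_tendsto (hk.mono fun a ha => (ha.1 i).2.1) hid
    · have hc : IsClosed {a : ℝ | θ i ≤ (k i : ℝ) * a} :=
        isClosed_le continuous_const (by fun_prop)
      exact hc.mem_of_frequently_of_tendsto (hk.mono fun a ha => (ha.1 i).2.2) hid
  · intro h
    have h1 : ∀ᶠ a in nhdsWithin (sInf A) A, a < 2 * Real.pi / 5 :=
      hid.eventually (gt_mem_nhds h)
    obtain ⟨a, ha, hb⟩ := (hk.and_eventually h1).exists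
    exact ha.2.1 hb
  · intro h
    have h1 : ∀ᶠ a in nhdsWithin (sInf A) A, a < 5 * Real.pi / 14 :=
      hid.eventually (gt_mem_nhds h)
    obtain ⟨a, ha, hb⟩ := (hk.and_eventually h1).exists
    exact ha.2.2 hb

end Pool.Agent.R171.Dis
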